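import Pool.Agent.H.MP_54d8ad_lc.A

set_option autoImplicit false

namespace Pool.Agent.Results.MP_54d8ad_lc.No

open Filter Topology Finset Pool.Agent.H.MP_54d8ad_lc

def EU (h : ℕ → ℝ) : Set (Set ℕ) :=
  {A | Tendsto (fun n : ℕ => (∑ i ∈ range n, A.indicator h i) / ∑ i ∈ range n, h i) atTop (𝓝 0)}

def InH (g : ℕ → ℕ) : Prop :=
  Monotone g ∧ Tendsto g atTop atTop ∧ ¬ Tendsto (fun n : ℕ => (n : ℝ) / g n) atTop (𝓝 0)

def Z (g : ℕ → ℕ) (f : ℝ → ℝ) : Set (Set ℕ) :=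
  {A | Tendsto (fun n : ℕ => f ((A ∩ Set.Iio n).ncard) / f (g n)) atTop (𝓝 0)}

def Modulus (f : ℝ → ℝ) : Prop :=
  (∀ x, 0 ≤ x → 0 ≤ f x) ∧ (∀ x, 0 ≤ x → (f x = 0 ↔ x = 0)) ∧
    (∀ x y, 0 ≤ x → 0 ≤ y → f (x + y) ≤ f x + f y) ∧ MonotoneOn f (Set.Ici 0) ∧
    ContinuousWithinAt f (Set.Ici 0) 0

theorem result (h : ℕ → ℝ) (h0 : ∀ i, 0 ≤ h i)
    (hinf : Tendsto (fun n => ∑ i ∈ range n, h i) atTop atTop)
    (hsm : Tendsto (fun n => h n / ∑ i ∈ range (n + 1), h i) atTop (𝓝 0))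
    (g : ℕ → ℕ) (hg : InH g) (f : ℝ → ℝ) (hf : Modulus f) (hu : ¬ BddAbove (f '' Set.Ici 0))
    (he : EU h = Z g f) : ∃ g', InH g' ∧ EU h = Z g' id := by
  obtain ⟨f1, f2, f3, f4, -⟩ := hf
  have F0 : f ((0 : ℕ) : ℝ) = 0 := (f2 _ (by simp)).2 (by simp)
  have Fs : ∀ x y : ℕ, f ((x + y : ℕ) : ℝ) ≤ f x + f y := fun x y => by
    push_cast; exact f3 _ _ (Nat.cast_nonneg _) (Nat.cast_nonneg _)
  have Fm : Monotone fun x : ℕ => f x := fun x y hxy =>
    f4 (Set.mem_Ici.2 (Nat.cast_nonneg x)) (Set.mem_Ici.2 (Nat.cast_nonneg y))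
      (by exact_mod_cast hxy)
  have Fp : ∀ x : ℕ, 0 < x → 0 < f x := fun x hx =>
    lt_of_le_of_ne (f1 _ (Nat.cast_nonneg _)) fun e => by
      have := (f2 _ (Nat.cast_nonneg x)).1 e.symm
      exact hx.ne' (by exact_mod_cast this)
  have Ft : Tendsto (fun x : ℕ => f x) atTop atTop := by
    refine tendsto_atTop_atTop_of_monotone Fm fun b => ?_
    obtain ⟨_, ⟨x, hx, rfl⟩, hb⟩ := not_bddAbove_iff.1 hu b
    exact ⟨⌈x⌉₊, hb.le.trans (f4 hx (Set.mem_Ici.2 (Nat.cast_nonneg _)) (Nat.le_ceil x))⟩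
  have hk : ∀ ε > 0, ∃ k : ℕ, 0 < k ∧ ∀ᶠ n in atTop, f ((n / k : ℕ) : ℝ) ≤ ε * f (g n) := by
    intro ε hε
    by_contra hc
    push Not at hc
    have h1 : ∀ j : ℕ, ∃ n, j ≤ n ∧ ε * f (g n) < f ((n / 2 ^ j : ℕ) : ℝ) := fun j =>
      frequently_atTop.1 (hc (2 ^ j) (by positivity)) j
    choose N hN1 hN2 using h1
    obtain ⟨A, hA1, hA2⟩ := thin h h0 hinf hsm N
    have hA : A ∈ Z g f := he ▸ hA1
    have hNt : Tendsto N atTop atTop := tendsto_atTop_mono hN1 tendsto_id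
    obtain ⟨j, a1, a2⟩ := (((Tendsto.comp hA hNt).eventually (gt_mem_nhds hε)).and
      ((hg.2.1.comp hNt).eventually_gt_atTop 0)).exists
    have a3 := (div_lt_iff₀ (Fp _ a2)).1 a1
    have a4 := Fm (hA2 j)
    exact lt_irrefl _ ((hN2 j).trans_le (a4.trans a3.le))
  have hle : ∀ (A : Set ℕ) (n : ℕ), (A ∩ Set.Iio n).ncard ≤ n := fun A n => by
    simpa using Set.ncard_le_ncard (Set.inter_subset_right (s := A) (t := Set.Iio n))
      (Set.finite_Iio n)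
  have E := equiv (fun x : ℕ => f x) F0 Fs Fm Fp g hg.2.1 hk
  have hG : Tendsto (fun n : ℕ => (n : ℝ) * f (g n) / f n) atTop atTop := by
    have h1 := (E (fun n => min n 1) (fun n => min_le_left _ _)).1 (by
      refine (tendsto_const_nhds (x := f ((1 : ℕ) : ℝ))).div_atTop (Ft.comp hg.2.1) |>.congr' ?_
      filter_upwards [eventually_ge_atTop 1] with n hn
      simp [min_eq_right hn])
    have h2 : Tendsto (fun n : ℕ => ((n : ℝ) * f (g n) / f n)⁻¹) atTop (𝓝[>] 0) := by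
      refine tendsto_nhdsWithin_iff.2 ⟨h1.congr' ?_, ?_⟩
      · filter_upwards [eventually_ge_atTop 1] with n hn
        simp [min_eq_right hn]
      · filter_upwards [eventually_gt_atTop 0, hg.2.1.eventually_gt_atTop 0] with n a1 a2
        have := Fp _ a1
        have := Fp _ a2
        exact Set.mem_Ioi.2 (by positivity)
    exact h2.inv_tendsto_nhdsGT_zero.congr fun n => inv_inv _
  obtain ⟨g', g1, g2, g3⟩ := regular _ hG
  have key : EU h = Z g' id := by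
    rw [he]
    ext A
    refine (E _ (hle A)).trans (g3 _ fun a b hab => ?_)
    exact Set.ncard_le_ncard (Set.inter_subset_inter_right _ (Set.Iio_subset_Iio hab))
      ((Set.finite_Iio b).inter_of_right _)
  refine ⟨g', ⟨g1, g2, fun hc => ?_⟩, key⟩
  have h1 : Set.univ ∈ EU h := by
    rw [key]
    simpa [Z] using hc
  have h2 : Tendsto (fun n : ℕ => (∑ i ∈ range n, (Set.univ : Set ℕ).indicator h i) /
      ∑ i ∈ range n, h i) atTop (𝓝 1) := by
    refine tendsto_const_nhds.congr' ?_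
    filter_upwards [hinf.eventually_gt_atTop 0] with n hn
    simp [div_self hn.ne']
  exact zero_ne_one (tendsto_nhds_unique h1 h2)

end Pool.Agent.Results.MP_54d8ad_lc.No
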